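import Pool.Agent.P8H64.GP.Stm2

/-!
# Gaussian product inequality, third part: a part of low rank is enough (`Z = Z' + Z''`, `Var Z'_i ≥ c Var Z_i`)
-/

set_option autoImplicit false

namespace Pool.Agent.P8H64.GP

open MeasureTheory ProbabilityTheory

/-- TILTB (30 lines): adaptation of `Pool.Agent.P8H73.GP.tilt` to different factors for the coordinates. -/
def S_TILTB : Prop := ∀ (n : ℕ) (F : (Fin n → ℝ) → ℝ), Measurable F → (∀ v, 0 ≤ F v) → ∀ a : Fin n → ℝ,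
  (∀ k, 0 < a k) →
  ∫ w, F w ∂(gr n) =
    (∏ k, a k) * ∫ v, F (fun k => a k * v k) * Real.exp (-∑ k, (a k ^ 2 - 1) / 2 * v k ^ 2) ∂(gr n)

/-- INTB (60 lines): polynomial growth; for instance `|⟨u, v⟩| ^ (2 ν) ≤ K exp (ε |v| ^ 2)` by Cauchy and Schwarz, with
`d ε ≤ 1 / 4`, and `exp (|v| ^ 2 / 4)` is integrable (product); or Hölder and the moments of Gaussian laws. -/
def S_INTB : Prop := ∀ (n d : ℕ) (U : Fin d → Fin n → ℝ) (ν : Fin d → ℝ), (∀ i, 0 ≤ ν i) →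
  Integrable (fun v : Fin n → ℝ => ∏ i, |∑ k, U i k * v k| ^ (2 * ν i)) (gr n)

/-- REPB (60 lines): adaptation of `Pool.Agent.P8H94.GP.rep`: with `S = S' + S''`, factorise both
(`Pool.Agent.P8H94.GP.exists_factor`), `U = [U' U'']` (`Fin.append` or `Fin.addCases`), and compare the characteristic
functions as there (covariance `U Uᵀ = S`). -/
def S_REPB : Prop := ∀ (d : ℕ) (μ : Measure (Fin d → ℝ)), IsGaussian μ → ∫ x, x ∂μ = 0 →
  ∀ S' : Matrix (Fin d) (Fin d) ℝ, S'.PosSemidef →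
    ((Matrix.of fun i j : Fin d => ∫ x, x i * x j ∂μ) - S').PosSemidef →
    ∃ (q : ℕ) (U : Matrix (Fin d) (Fin (S'.rank + q)) ℝ),
      μ = (gr (S'.rank + q)).map (fun w => U.mulVec w) ∧
      (∀ i, ∫ x, x i * x i ∂μ = ∑ k, U i k ^ 2) ∧
      ∀ i, S' i i = ∑ k : Fin S'.rank, U i (Fin.castAdd q k) ^ 2

/-- UNIB (70 lines, numbers). For `y = 2 s / r` one needs `x ≥ 0` (`x = a² - 1`) with
`log (1 + c x) + (1 / y) log (1 + x) - x / y ≥ log (1 + A τ)`. If `c y ≤ 2`: take `x = c y / 2`: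
`log (1 + c x) ≥ c x / (1 + c x) ≥ c² y / 4` (as `c x ≤ 1`) and `log (1 + x) - x ≥ - x² / 2`, so the left side is at
least `c² y / 4 - c² y / 8 = c² y / 8 ≥ A τ ≥ log (1 + A τ)`. If `c y > 2`: take `x = y`: it is at least
`log (1 + c y) - 1`, and more precisely take `x = y / 2`: `≥ log (1 + c y / 2) - 1 / 2 ≥ log (1 + c y / 16)` ..; any
choice is fine, `C` may be as large as one likes (absolute, times `A`). -/
def S_UNIB : Prop := ∀ A : ℝ, 1 ≤ A → ∃ C : ℝ, 0 < C ∧ ∀ (c τ : ℝ) (r : ℕ) (s : ℝ), 0 < c → c ≤ 1 → 0 < τ → 1 ≤ r →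
  C * τ * r ≤ c ^ 2 * s →
  ∃ a : ℝ, 1 < a ∧ s * Real.log (1 + A * τ) ≤
    r * Real.log a + s * Real.log (1 + c * (a ^ 2 - 1)) - (a ^ 2 - 1) / 2 * r

end Pool.Agent.P8H64.GP
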