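import Pool.Agent.P8H64.GP.Main

/-!
# Gaussian product inequality for covariance matrices of low rank: the theorem
-/

set_option autoImplicit false

namespace Pool.Agent.P8H64.GP

open MeasureTheory ProbabilityTheory

theorem final (hREP : S_REP) (hT : S_TILT) (hLAW : S_LAW) (hLOG : S_LOG) (hB : S_BDD) (hSQ : S_SQ) (hM : S_MOM)
    (hK : S_K) (hUNI : S_UNI) : ∃ C : ℝ, 0 < C ∧ ∀ (d : ℕ) (μ : Measure (Fin d → ℝ)), IsGaussian μ →
      ∫ x, x ∂μ = 0 → ∀ (ν : Fin d → ℝ) (τ : ℝ), (∀ i, 0 ≤ ν i) → (∀ i, ν i ≤ τ) →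
        C * τ * (Matrix.of fun i j : Fin d => ∫ x, x i * x j ∂μ).rank ≤ ∑ i, ν i →
          ∏ i, ∫ x, |x i| ^ (2 * ν i) ∂μ ≤ ∫ x, ∏ i, |x i| ^ (2 * ν i) ∂μ := by
  obtain ⟨C, hC, h⟩ := all_case hT hLAW hLOG hB hSQ hM hK hUNI
  refine ⟨C, hC, fun d μ hμ hμ0 ν τ hν hντ hs => ?_⟩
  have hprob : IsProbabilityMeasure μ := inferInstance
  rcases le_or_gt τ 0 with hτ | hτ
  · have hν0 : ∀ i, ν i = 0 := fun i => le_antisymm ((hντ i).trans hτ) (hν i)
    simp [hν0]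
  have key : ∀ (r : ℕ) (U : Matrix (Fin d) (Fin r) ℝ), μ = (gr r).map (fun w => U.mulVec w) →
      C * τ * r ≤ ∑ i, ν i → ∏ i, ∫ x, |x i| ^ (2 * ν i) ∂μ ≤ ∫ x, ∏ i, |x i| ^ (2 * ν i) ∂μ := by
    intro r U hU hs
    have hmU : Measurable fun w : Fin r → ℝ => U.mulVec w := measurable_pi_lambda _ fun i => meas_dot (U i)
    have e1 : ∀ f : (Fin d → ℝ) → ℝ, Measurable f → ∫ x, f x ∂μ = ∫ w, f (U.mulVec w) ∂(gr r) := by
      intro f hf
      rw [hU, integral_map hmU.aemeasurable hf.aestronglyMeasurable]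
    have hmi : ∀ i : Fin d, Measurable fun x : Fin d → ℝ => |x i| ^ (2 * ν i) := fun i =>
      ((measurable_pi_apply i).norm).pow_const _
    have e2 : ∫ x, ∏ i, |x i| ^ (2 * ν i) ∂μ = ∫ w, ∏ i, |∑ k, U i k * w k| ^ (2 * ν i) ∂(gr r) :=
      e1 _ (Finset.measurable_prod _ fun i _ => hmi i)
    have e3 : ∏ i, ∫ x, |x i| ^ (2 * ν i) ∂μ = ∏ i, ∫ w, |∑ k, U i k * w k| ^ (2 * ν i) ∂(gr r) :=
      Finset.prod_congr rfl fun i _ => e1 _ (hmi i)
    rw [e2, e3]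
    rcases Nat.eq_zero_or_pos r with hr | hr
    · subst hr
      have e4 : ∀ g : (Fin 0 → ℝ) → ℝ, ∫ w, g w ∂(gr 0) = g default := by
        intro g
        have : g = fun _ => g default := by
          funext w
          rw [Subsingleton.elim w default]
        rw [this]
        simp
      rw [e4]
      simp only [e4]
      exact le_rfl
    · exact h r d U ν τ hν hντ hτ hr hs
  obtain ⟨U, hU⟩ := hREP d μ hμ hμ0
  exact key _ U hU hs

end Pool.Agent.P8H64.GP
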