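import Pool.Agent.P8H64.GP.Stm

/-!
# Gaussian product inequality, low rank: packages for an absolute constant (condition `∑ ν_i ≥ C · rank · max ν_i`)
-/

set_option autoImplicit false

namespace Pool.Agent.P8H64.GP

open MeasureTheory ProbabilityTheory

/-- SMALL (70 lines). With `L = log |x|`, `m = E L`: `exp u ≤ 1 + u + u ^ 2 * exp (max u 0)` for `u = 2 τ (L - m)`, `E u = 0`,
so `E exp u ≤ 1 + τ ^ 2 B ≤ exp (B τ ^ 2)`, `B = E [4 (L - m) ^ 2 exp (max (2 (L - m)) 0)]`; finite, since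
`exp (max (2 (L - m)) 0) ≤ 1 + exp (-2 m) x ^ 2` and `(L - m) ^ 2` is bounded by a constant times `|x| ^ (-1/2) + x ^ 2`
(or take any `B` with such a bound); `|x| ^ (2 τ) = exp (2 τ L)` for `x ≠ 0`. -/
def S_SMALL : Prop := ∃ B : ℝ, 0 < B ∧ ∀ τ : ℝ, 0 < τ → τ ≤ 1 →
  ∫ x, |x| ^ (2 * τ) ∂(gaussianReal 0 1) ≤
    Real.exp (2 * τ * ∫ x, Real.log |x| ∂(gaussianReal 0 1) + B * τ ^ 2)

/-- BIG (50 lines). `|x| ^ (2 τ) ≤ (4 τ / e) ^ τ * exp (x ^ 2 / 4)` (from `log y ≤ y - 1`) and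
`E exp (x ^ 2 / 4) = √2 ` (or any finite bound `≤ D ^ τ`, as `τ ≥ 1`). -/
def S_BIG : Prop := ∃ D : ℝ, 1 ≤ D ∧ ∀ τ : ℝ, 1 ≤ τ →
  ∫ x, |x| ^ (2 * τ) ∂(gaussianReal 0 1) ≤ (D * τ) ^ τ

/-- the conclusion of SMALL and BIG -/
def S_K : Prop := ∃ A : ℝ, 1 ≤ A ∧ ∀ τ : ℝ, 0 < τ →
  ∫ x, |x| ^ (2 * τ) ∂(gaussianReal 0 1) ≤
    Real.exp (τ * (2 * ∫ x, Real.log |x| ∂(gaussianReal 0 1) + Real.log (1 + A * τ)))

/-- KAS (30 lines). For `τ ≤ 1`: `B τ ≤ τ log (1 + A) ≤ log (1 + A τ)` if `A ≥ exp B` (concavity of `log`, or Bernoulli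
`(1 + A τ) ≥ (1 + A) ^ τ`, `Real.rpow_one_add_le_one_add_mul_self`). For `τ ≥ 1`: `D τ ≤ exp (2 m) (1 + A τ)` if
`A ≥ D exp (-2 m)`. -/
def S_KAS : Prop := S_SMALL → S_BIG → S_K

/-- UNI (60 lines, numbers). Take `a ^ 2 = 1 + x`, `x = 2 s / r`; the right side minus `2 s m` is
`s ((1 + 1 / x) log (1 + x) - 1)`, and `(1 + 1 / x) log (1 + x) - 1 ≥ log (1 + x / 4)` for `x > 0`: the function
`(1 + x) log (1 + x) - x - x log (1 + x / 4)` is `0` at `0` and its derivative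
`log ((1 + x) / (1 + x / 4)) - x / (4 + x)` is `≥ 0` (for `x ≤ 8` by `log y ≥ 1 - 1 / y`, for `x > 8` since `log 3 > 1`);
any other constant in place of `4` is fine too. So `C = 2 A` (or larger) works: `x / 4 ≥ A τ`. -/
def S_UNI : Prop := ∀ m A : ℝ, 1 ≤ A → ∃ C : ℝ, 0 < C ∧ ∀ (τ : ℝ) (r : ℕ) (s : ℝ), 0 < τ → 1 ≤ r → C * τ * r ≤ s →
  ∃ a : ℝ, 1 < a ∧ s * (2 * m + Real.log (1 + A * τ)) ≤
    r * Real.log a + 2 * s * Real.log a + 2 * s * m - (a ^ 2 - 1) / 2 * r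

end Pool.Agent.P8H64.GP
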