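import Pool.Agent.P8H64.GP.Rep
import Pool.Agent.P8H64.GP.Stm2

/-!
# Gaussian product inequality for covariance matrices of low rank: assembly
-/

set_option autoImplicit false

namespace Pool.Agent.P8H64.GP

open MeasureTheory ProbabilityTheory

/-- the mean of `log |x|` -/
noncomputable def mlog : ℝ := ∫ x, Real.log |x| ∂(gaussianReal 0 1)

theorem meas_dot {r : ℕ} (u : Fin r → ℝ) : Measurable fun v : Fin r → ℝ => ∑ k, u k * v k :=
  Finset.measurable_sum _ fun k _ => measurable_const.mul (measurable_pi_apply k)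

theorem log_int (hLAW : S_LAW) (hLOG : S_LOG) {r : ℕ} (u : Fin r → ℝ) (hu : ∑ k, u k ^ 2 = 1) :
    Integrable (fun v : Fin r → ℝ => Real.log |∑ k, u k * v k|) (gr r) ∧
      ∫ v : Fin r → ℝ, Real.log |∑ k, u k * v k| ∂(gr r) = mlog := by
  have hmap := hLAW r u hu
  have hm : Measurable fun x : ℝ => Real.log |x| := Real.measurable_log.comp measurable_norm
  constructor
  · have h1 : Integrable (fun x : ℝ => Real.log |x|) ((gr r).map (fun v => ∑ k, u k * v k)) := by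
      rw [hmap]; exact hLOG
    exact h1.comp_measurable (meas_dot u)
  · unfold mlog
    rw [← hmap, integral_map (meas_dot u).aemeasurable hm.aestronglyMeasurable]

theorem nonzero_ae (hLAW : S_LAW) {r : ℕ} (u : Fin r → ℝ) (hu : ∑ k, u k ^ 2 = 1) :
    ∀ᵐ v ∂(gr r), ∑ k, u k * v k ≠ 0 := by
  have hmap := hLAW r u hu
  have hna : NullSingletonClass (gaussianReal 0 1) := nullSingletonClass_gaussianReal one_ne_zero
  have h1 : ∀ᵐ x ∂((gr r).map (fun v => ∑ k, u k * v k)), x ≠ 0 := by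
    rw [hmap]
    exact measure_mono_null (fun x hx => by simpa using hx) (measure_singleton (μ := gaussianReal 0 1) (0 : ℝ))
  exact ae_of_ae_map (meas_dot u).aemeasurable h1

theorem lower (hT : S_TILT) (hLAW : S_LAW) (hLOG : S_LOG) (hB : S_BDD) (hSQ : S_SQ) {r d : ℕ}
    (U : Fin d → Fin r → ℝ) (hU : ∀ i, ∑ k, U i k ^ 2 = 1) (ν : Fin d → ℝ) (hν : ∀ i, 0 ≤ ν i) {a : ℝ}
    (ha : 1 < a) :
    Real.exp (r * Real.log a + 2 * (∑ i, ν i) * Real.log a + 2 * (∑ i, ν i) * mlog - (a ^ 2 - 1) / 2 * r) ≤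
      ∫ w : Fin r → ℝ, ∏ i, |∑ k, U i k * w k| ^ (2 * ν i) ∂(gr r) := by
  set F : (Fin r → ℝ) → ℝ := fun v => ∏ i, |∑ k, U i k * v k| ^ (2 * ν i) with hF
  have ha0 : 0 < a := by linarith
  have hmF : Measurable F := Finset.measurable_prod _ fun i _ => ((meas_dot (U i)).norm).pow_const _
  have hF0 : ∀ v, 0 ≤ F v := fun v => Finset.prod_nonneg fun i _ => Real.rpow_nonneg (abs_nonneg _) _
  have hhom : ∀ v : Fin r → ℝ, F (fun k => a * v k) = a ^ (2 * ∑ i, ν i) * F v := by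
    intro v
    rw [hF]
    simp only
    rw [Finset.mul_sum, Real.rpow_sum_of_pos ha0, ← Finset.prod_mul_distrib]
    refine Finset.prod_congr rfl fun i _ => ?_
    rw [show ∑ k, U i k * (a * v k) = a * ∑ k, U i k * v k by
      rw [Finset.mul_sum]; exact Finset.sum_congr rfl fun k _ => by ring, abs_mul, abs_of_pos ha0,
      Real.mul_rpow ha0.le (abs_nonneg _)]
  set c : ℝ := (a ^ 2 - 1) / 2 with hc
  have hc0 : 0 < c := by rw [hc]; nlinarith
  have h1 : ∫ w, F w ∂(gr r) = a ^ r * (a ^ (2 * ∑ i, ν i) *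
      ∫ v, F v * Real.exp (-c * ∑ k, v k ^ 2) ∂(gr r)) := by
    rw [hT r F hmF hF0 a ha0]
    congr 1
    rw [← integral_const_mul]
    refine integral_congr_ae (Filter.Eventually.of_forall fun v => ?_)
    show F (fun k => a * v k) * _ = _
    rw [hhom, mul_assoc]
  set G : (Fin r → ℝ) → ℝ := fun v => ∑ i, 2 * ν i * Real.log |∑ k, U i k * v k| - c * ∑ k, v k ^ 2 with hG
  have hGint : Integrable G (gr r) := by
    refine Integrable.sub (integrable_finsetSum _ fun i _ => ?_) ((hSQ r).1.const_mul c)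
    exact (log_int hLAW hLOG (U i) (hU i)).1.const_mul _
  have hGval : ∫ v, G v ∂(gr r) = 2 * (∑ i, ν i) * mlog - c * r := by
    rw [hG, integral_sub (integrable_finsetSum _ fun i _ => (log_int hLAW hLOG (U i) (hU i)).1.const_mul _)
      ((hSQ r).1.const_mul c), integral_const_mul, (hSQ r).2, integral_finsetSum _ fun i _ =>
      (log_int hLAW hLOG (U i) (hU i)).1.const_mul _]
    congr 1
    rw [Finset.mul_sum, Finset.sum_mul]
    refine Finset.sum_congr rfl fun i _ => ?_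
    rw [integral_const_mul, (log_int hLAW hLOG (U i) (hU i)).2]
  have hae : ∀ᵐ v ∂(gr r), Real.exp (G v) = F v * Real.exp (-c * ∑ k, v k ^ 2) := by
    have h2 : ∀ᵐ v ∂(gr r), ∀ i, ∑ k, U i k * v k ≠ 0 := ae_all_iff.2 fun i => nonzero_ae hLAW (U i) (hU i)
    filter_upwards [h2] with v hv
    rw [hG, hF]
    simp only
    rw [sub_eq_add_neg, Real.exp_add, Real.exp_sum, ← neg_mul]
    congr 1
    refine Finset.prod_congr rfl fun i _ => ?_
    rw [Real.rpow_def_of_pos (abs_pos.2 (hv i)), mul_comm]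
  have hexpint : Integrable (fun v => Real.exp (G v)) (gr r) :=
    (hB r d U hU ν hν c hc0).congr (hae.mono fun v hv => hv.symm)
  have h3 : Real.exp (∫ v, G v ∂(gr r)) ≤ ∫ v, Real.exp (G v) ∂(gr r) :=
    convexOn_exp.map_integral_le Real.continuous_exp.continuousOn isClosed_univ
      (Filter.Eventually.of_forall fun _ => Set.mem_univ _) hGint hexpint
  rw [integral_congr_ae hae, hGval] at h3
  show _ ≤ ∫ w, F w ∂(gr r)
  rw [h1]
  have e1 : (a : ℝ) ^ r = Real.exp (r * Real.log a) := by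
    rw [← Real.rpow_natCast, Real.rpow_def_of_pos ha0, mul_comm]
  have e2 : a ^ (2 * ∑ i, ν i) = Real.exp (2 * (∑ i, ν i) * Real.log a) := by
    rw [Real.rpow_def_of_pos ha0, mul_comm]
  rw [e1, e2, ← mul_assoc, ← Real.exp_add]
  refine le_trans (le_of_eq ?_) (mul_le_mul_of_nonneg_left h3 (Real.exp_pos _).le)
  rw [← Real.exp_add]
  congr 1
  rw [hc]
  ring

theorem upper (hLAW : S_LAW) (hM : S_MOM) {r d : ℕ}
    (U : Fin d → Fin r → ℝ) (hU : ∀ i, ∑ k, U i k ^ 2 = 1) (ν : Fin d → ℝ) (hν : ∀ i, 0 ≤ ν i) {τ κ : ℝ}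
    (hτ : 0 < τ) (hντ : ∀ i, ν i ≤ τ)
    (hκ : ∫ x, |x| ^ (2 * τ) ∂(gaussianReal 0 1) ≤ Real.exp (τ * κ)) :
    ∏ i, ∫ w : Fin r → ℝ, |∑ k, U i k * w k| ^ (2 * ν i) ∂(gr r) ≤ Real.exp ((∑ i, ν i) * κ) := by
  rw [Finset.sum_mul, Real.exp_sum]
  refine Finset.prod_le_prod (fun i _ => integral_nonneg fun w => Real.rpow_nonneg (abs_nonneg _) _) fun i _ => ?_
  have hm : Measurable fun x : ℝ => |x| ^ (2 * ν i) := measurable_norm.pow_const _
  have h1 : ∫ w : Fin r → ℝ, |∑ k, U i k * w k| ^ (2 * ν i) ∂(gr r) =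
      ∫ x, |x| ^ (2 * ν i) ∂(gaussianReal 0 1) := by
    rw [← hLAW r (U i) (hU i), integral_map (meas_dot (U i)).aemeasurable hm.aestronglyMeasurable]
  rw [h1]
  refine ((hM (ν i) τ (hν i) (hντ i) hτ).2).trans ?_
  have h0 : 0 ≤ ∫ x, |x| ^ (2 * τ) ∂(gaussianReal 0 1) := integral_nonneg fun x => Real.rpow_nonneg (abs_nonneg _) _
  refine (Real.rpow_le_rpow h0 hκ (div_nonneg (hν i) hτ.le)).trans (le_of_eq ?_)
  rw [← Real.exp_mul]
  congr 1
  field_simp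

/-- the inequality for unit vectors -/
theorem unit_case (hT : S_TILT) (hLAW : S_LAW) (hLOG : S_LOG) (hB : S_BDD) (hSQ : S_SQ) (hM : S_MOM)
    (hK : S_K) (hUNI : S_UNI) : ∃ C : ℝ, 0 < C ∧ ∀ (r d : ℕ) (U : Fin d → Fin r → ℝ), (∀ i, ∑ k, U i k ^ 2 = 1) →
      ∀ (ν : Fin d → ℝ) (τ : ℝ), (∀ i, 0 ≤ ν i) → (∀ i, ν i ≤ τ) → 0 < τ → 1 ≤ r → C * τ * r ≤ ∑ i, ν i →
      ∏ i, ∫ w : Fin r → ℝ, |∑ k, U i k * w k| ^ (2 * ν i) ∂(gr r) ≤
        ∫ w : Fin r → ℝ, ∏ i, |∑ k, U i k * w k| ^ (2 * ν i) ∂(gr r) := by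
  obtain ⟨A, hA, hA'⟩ := hK
  obtain ⟨C, hC, h⟩ := hUNI mlog A hA
  refine ⟨C, hC, fun r d U hU ν τ hν hντ hτ hr hs => ?_⟩
  obtain ⟨a, ha, h1⟩ := h τ r (∑ i, ν i) hτ hr hs
  exact (upper hLAW hM U hU ν hν hτ hντ (hA' τ hτ)).trans ((Real.exp_le_exp.2 h1).trans
    (lower hT hLAW hLOG hB hSQ U hU ν hν ha))

theorem scale {r : ℕ} (hr : 1 ≤ r) (u : Fin r → ℝ) : ∃ (c : ℝ) (v : Fin r → ℝ), 0 ≤ c ∧ ∑ k, v k ^ 2 = 1 ∧
    ∀ k, u k = c * v k := by
  rcases eq_or_ne (∑ k, u k ^ 2) 0 with h | h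
  · refine ⟨0, Pi.single ⟨0, hr⟩ 1, le_rfl, ?_, fun k => ?_⟩
    · rw [Finset.sum_eq_single (⟨0, hr⟩ : Fin r)]
      · simp
      · intro b _ hb
        rw [Pi.single_eq_of_ne hb]
        norm_num
      · intro hh
        exact absurd (Finset.mem_univ _) hh
    · rw [zero_mul]
      have := (Finset.sum_eq_zero_iff_of_nonneg fun k _ => sq_nonneg (u k)).1 h k (Finset.mem_univ _)
      exact pow_eq_zero_iff (two_ne_zero) |>.1 this
  · have h0 : 0 < ∑ k, u k ^ 2 := lt_of_le_of_ne (Finset.sum_nonneg fun k _ => sq_nonneg _) (Ne.symm h)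
    have hs : 0 < Real.sqrt (∑ k, u k ^ 2) := Real.sqrt_pos.2 h0
    refine ⟨Real.sqrt (∑ k, u k ^ 2), fun k => u k / Real.sqrt (∑ k, u k ^ 2), hs.le, ?_, fun k => ?_⟩
    · simp only [div_pow]
      rw [← Finset.sum_div, Real.sq_sqrt h0.le, div_self h]
    · rw [mul_div_cancel₀ _ hs.ne']

/-- the inequality for all vectors -/
theorem all_case (hT : S_TILT) (hLAW : S_LAW) (hLOG : S_LOG) (hB : S_BDD) (hSQ : S_SQ) (hM : S_MOM)
    (hK : S_K) (hUNI : S_UNI) : ∃ C : ℝ, 0 < C ∧ ∀ (r d : ℕ) (U : Fin d → Fin r → ℝ),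
      ∀ (ν : Fin d → ℝ) (τ : ℝ), (∀ i, 0 ≤ ν i) → (∀ i, ν i ≤ τ) → 0 < τ → 1 ≤ r → C * τ * r ≤ ∑ i, ν i →
      ∏ i, ∫ w : Fin r → ℝ, |∑ k, U i k * w k| ^ (2 * ν i) ∂(gr r) ≤
        ∫ w : Fin r → ℝ, ∏ i, |∑ k, U i k * w k| ^ (2 * ν i) ∂(gr r) := by
  obtain ⟨C, hC, h⟩ := unit_case hT hLAW hLOG hB hSQ hM hK hUNI
  refine ⟨C, hC, fun r d U ν τ hν hντ hτ hr hs => ?_⟩
  choose c V hc hV hUV using fun i => scale hr (U i)
  have h1 : ∀ (i : Fin d) (w : Fin r → ℝ), |∑ k, U i k * w k| ^ (2 * ν i) =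
      c i ^ (2 * ν i) * |∑ k, V i k * w k| ^ (2 * ν i) := by
    intro i w
    have e : ∑ k, U i k * w k = c i * ∑ k, V i k * w k := by
      rw [Finset.mul_sum]
      exact Finset.sum_congr rfl fun k _ => by rw [hUV i k]; ring
    rw [e, abs_mul, abs_of_nonneg (hc i), Real.mul_rpow (hc i) (abs_nonneg _)]
  have h2 := h r d V hV ν τ hν hντ hτ hr hs
  have h3 : ∏ i, ∫ w : Fin r → ℝ, |∑ k, U i k * w k| ^ (2 * ν i) ∂(gr r) =
      (∏ i, c i ^ (2 * ν i)) * ∏ i, ∫ w : Fin r → ℝ, |∑ k, V i k * w k| ^ (2 * ν i) ∂(gr r) := by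
    rw [← Finset.prod_mul_distrib]
    refine Finset.prod_congr rfl fun i _ => ?_
    rw [← integral_const_mul]
    exact integral_congr_ae (Filter.Eventually.of_forall fun w => h1 i w)
  have h4 : ∫ w : Fin r → ℝ, ∏ i, |∑ k, U i k * w k| ^ (2 * ν i) ∂(gr r) =
      (∏ i, c i ^ (2 * ν i)) * ∫ w : Fin r → ℝ, ∏ i, |∑ k, V i k * w k| ^ (2 * ν i) ∂(gr r) := by
    rw [← integral_const_mul]
    refine integral_congr_ae (Filter.Eventually.of_forall fun w => ?_)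
    show ∏ i, |∑ k, U i k * w k| ^ (2 * ν i) =
      (∏ i, c i ^ (2 * ν i)) * ∏ i, |∑ k, V i k * w k| ^ (2 * ν i)
    rw [← Finset.prod_mul_distrib]
    exact Finset.prod_congr rfl fun i _ => h1 i w
  rw [h3, h4]
  exact mul_le_mul_of_nonneg_left h2 (Finset.prod_nonneg fun i _ => Real.rpow_nonneg (hc i) _)

end Pool.Agent.P8H64.GP
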