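import Pool.Agent.P8H64.GP.Main
import Pool.Agent.P8H64.GP.Stm3
import Pool.Agent.P8H24.GP.Sq

/-!
# Gaussian product inequality, third part: assembly
-/

set_option autoImplicit false

namespace Pool.Agent.P8H64.GP

open MeasureTheory ProbabilityTheory

theorem norm_row {n : ℕ} (w : Fin n → ℝ) (hw : 0 < ∑ k, w k ^ 2) :
    ∑ k, (w k / Real.sqrt (∑ k, w k ^ 2)) ^ 2 = 1 ∧
      ∀ v : Fin n → ℝ, ∑ k, w k * v k = Real.sqrt (∑ k, w k ^ 2) * ∑ k, w k / Real.sqrt (∑ k, w k ^ 2) * v k := by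
  have hs : 0 < Real.sqrt (∑ k, w k ^ 2) := Real.sqrt_pos.2 hw
  constructor
  · simp only [div_pow]
    rw [← Finset.sum_div, Real.sq_sqrt hw.le, div_self hw.ne']
  · intro v
    rw [Finset.mul_sum]
    refine Finset.sum_congr rfl fun k _ => ?_
    rw [← mul_assoc, mul_div_cancel₀ _ hs.ne']

theorem nonzero_aeB (hLAW : S_LAW) {n : ℕ} (w : Fin n → ℝ) (hw : 0 < ∑ k, w k ^ 2) :
    ∀ᵐ v ∂(gr n), ∑ k, w k * v k ≠ 0 := by
  obtain ⟨h1, h2⟩ := norm_row w hw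
  filter_upwards [nonzero_ae hLAW _ h1] with v hv
  rw [h2 v]
  exact mul_ne_zero (Real.sqrt_pos.2 hw).ne' hv

theorem logB (hLAW : S_LAW) (hLOG : S_LOG) {n : ℕ} (w : Fin n → ℝ) (hw : 0 < ∑ k, w k ^ 2) :
    Integrable (fun v : Fin n → ℝ => Real.log |∑ k, w k * v k|) (gr n) ∧
      ∫ v : Fin n → ℝ, Real.log |∑ k, w k * v k| ∂(gr n) = Real.log (∑ k, w k ^ 2) / 2 + mlog := by
  obtain ⟨h1, h2⟩ := norm_row w hw
  obtain ⟨g1, g2⟩ := log_int hLAW hLOG _ h1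
  have hs : 0 < Real.sqrt (∑ k, w k ^ 2) := Real.sqrt_pos.2 hw
  have hae : (fun v : Fin n → ℝ => Real.log |∑ k, w k * v k|) =ᵐ[gr n]
      fun v => Real.log (Real.sqrt (∑ k, w k ^ 2)) +
        Real.log |∑ k, w k / Real.sqrt (∑ k, w k ^ 2) * v k| := by
    filter_upwards [nonzero_ae hLAW _ h1] with v hv
    rw [h2 v, abs_mul, abs_of_pos hs, Real.log_mul hs.ne' (abs_pos.2 hv).ne']
  constructor
  · exact ((integrable_const _).add g1).congr hae.symm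
  · rw [integral_congr_ae hae, integral_add (integrable_const _) g1, g2, integral_const]
    simp [Real.log_sqrt hw.le]

theorem sqB (n : ℕ) (c : Fin n → ℝ) : Integrable (fun v : Fin n → ℝ => ∑ k, c k * v k ^ 2) (gr n) ∧
    ∫ v : Fin n → ℝ, ∑ k, c k * v k ^ 2 ∂(gr n) = ∑ k, c k := by
  have hmp : ∀ k : Fin n, MeasurePreserving (fun v : Fin n → ℝ => v k) (gr n) (gaussianReal 0 1) :=
    fun k => measurePreserving_eval (fun _ : Fin n => gaussianReal 0 1) k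
  have hint : ∀ k : Fin n, Integrable (fun v : Fin n → ℝ => v k ^ 2) (gr n) := fun k =>
    (hmp k).integrable_comp_of_integrable Pool.Agent.P8H24.GP.sq_int
  have hk : ∀ k : Fin n, ∫ v : Fin n → ℝ, v k ^ 2 ∂(gr n) = 1 := by
    intro k
    have h1 : ∫ x, x ^ 2 ∂((gr n).map (fun v : Fin n → ℝ => v k)) = ∫ v : Fin n → ℝ, v k ^ 2 ∂(gr n) :=
      integral_map (hmp k).measurable.aemeasurable (by fun_prop)
    rw [← h1, (hmp k).map_eq, Pool.Agent.P8H24.GP.sq_val]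
  refine ⟨integrable_finsetSum _ fun k _ => (hint k).const_mul _, ?_⟩
  rw [integral_finsetSum _ fun k _ => (hint k).const_mul _]
  refine Finset.sum_congr rfl fun k _ => ?_
  rw [integral_const_mul, hk, mul_one]

theorem lowerB (hT : S_TILTB) (hLAW : S_LAW) (hLOG : S_LOG) (hI : S_INTB) {n d : ℕ}
    (U : Fin d → Fin n → ℝ) (ν : Fin d → ℝ) (hν : ∀ i, 0 ≤ ν i) (a : Fin n → ℝ) (ha : ∀ k, 1 ≤ a k) {b : ℝ}
    (hb : 0 < b) (hσ : ∀ i, b ≤ ∑ k, (U i k * a k) ^ 2) :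
    Real.exp (∑ k, Real.log (a k) + (∑ i, ν i) * Real.log b + 2 * (∑ i, ν i) * mlog - ∑ k, (a k ^ 2 - 1) / 2) ≤
      ∫ w : Fin n → ℝ, ∏ i, |∑ k, U i k * w k| ^ (2 * ν i) ∂(gr n) := by
  set F : (Fin n → ℝ) → ℝ := fun v => ∏ i, |∑ k, U i k * v k| ^ (2 * ν i) with hF
  have ha0 : ∀ k, 0 < a k := fun k => lt_of_lt_of_le one_pos (ha k)
  have hmF : Measurable F := Finset.measurable_prod _ fun i _ => ((meas_dot (U i)).norm).pow_const _
  have hF0 : ∀ v, 0 ≤ F v := fun v => Finset.prod_nonneg fun i _ => Real.rpow_nonneg (abs_nonneg _) _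
  have hFa : ∀ v : Fin n → ℝ, F (fun k => a k * v k) = ∏ i, |∑ k, (U i k * a k) * v k| ^ (2 * ν i) := by
    intro v
    rw [hF]
    simp only
    refine Finset.prod_congr rfl fun i _ => ?_
    congr 3
    funext k
    ring
  have hS : ∀ i, 0 < ∑ k, (U i k * a k) ^ 2 := fun i => lt_of_lt_of_le hb (hσ i)
  set G : (Fin n → ℝ) → ℝ := fun v => ∑ i, 2 * ν i * Real.log |∑ k, (U i k * a k) * v k| -
    ∑ k, (a k ^ 2 - 1) / 2 * v k ^ 2 with hG
  have hl : ∀ i, Integrable (fun v : Fin n → ℝ => 2 * ν i * Real.log |∑ k, (U i k * a k) * v k|) (gr n) := fun i =>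
    (logB hLAW hLOG (fun k => U i k * a k) (hS i)).1.const_mul _
  have hGint : Integrable G (gr n) := (integrable_finsetSum _ fun i _ => hl i).sub (sqB n _).1
  have hGval : ∫ v, G v ∂(gr n) = ∑ i, 2 * ν i * (Real.log (∑ k, (U i k * a k) ^ 2) / 2 + mlog) -
      ∑ k, (a k ^ 2 - 1) / 2 := by
    rw [hG, integral_sub (integrable_finsetSum _ fun i _ => hl i) (sqB n _).1, (sqB n _).2,
      integral_finsetSum _ fun i _ => hl i]
    congr 1
    refine Finset.sum_congr rfl fun i _ => ?_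
    rw [integral_const_mul, (logB hLAW hLOG (fun k => U i k * a k) (hS i)).2]
  have hae : ∀ᵐ v ∂(gr n), Real.exp (G v) =
      F (fun k => a k * v k) * Real.exp (-∑ k, (a k ^ 2 - 1) / 2 * v k ^ 2) := by
    have h2 : ∀ᵐ v ∂(gr n), ∀ i, ∑ k, (U i k * a k) * v k ≠ 0 :=
      ae_all_iff.2 fun i => nonzero_aeB hLAW (fun k => U i k * a k) (hS i)
    filter_upwards [h2] with v hv
    rw [hFa, hG]
    simp only
    rw [sub_eq_add_neg, Real.exp_add, Real.exp_sum]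
    congr 1
    refine Finset.prod_congr rfl fun i _ => ?_
    rw [Real.rpow_def_of_pos (abs_pos.2 (hv i)), mul_comm]
  have hexpint : Integrable (fun v => Real.exp (G v)) (gr n) := by
    refine Integrable.mono' (hI n d (fun i k => U i k * a k) ν hν) hGint.aestronglyMeasurable.aemeasurable.exp.aestronglyMeasurable ?_
    filter_upwards [hae] with v hv
    rw [Real.norm_eq_abs, abs_of_pos (Real.exp_pos _), hv, hFa]
    refine mul_le_of_le_one_right (Finset.prod_nonneg fun i _ => Real.rpow_nonneg (abs_nonneg _) _) ?_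
    rw [Real.exp_le_one_iff, neg_nonpos]
    refine Finset.sum_nonneg fun k _ => mul_nonneg ?_ (sq_nonneg _)
    have := ha k
    nlinarith
  have h3 : Real.exp (∫ v, G v ∂(gr n)) ≤ ∫ v, Real.exp (G v) ∂(gr n) :=
    convexOn_exp.map_integral_le Real.continuous_exp.continuousOn isClosed_univ
      (Filter.Eventually.of_forall fun _ => Set.mem_univ _) hGint hexpint
  rw [integral_congr_ae hae] at h3
  show _ ≤ ∫ w, F w ∂(gr n)
  rw [hT n F hmF hF0 a ha0]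
  have e1 : ∏ k, a k = Real.exp (∑ k, Real.log (a k)) := by
    rw [Real.exp_sum]
    exact Finset.prod_congr rfl fun k _ => (Real.exp_log (ha0 k)).symm
  rw [e1]
  refine le_trans ?_ (mul_le_mul_of_nonneg_left h3 (Real.exp_pos _).le)
  rw [← Real.exp_add, Real.exp_le_exp, hGval]
  have h5 : (∑ i, ν i) * Real.log b + 2 * (∑ i, ν i) * mlog ≤
      ∑ i, 2 * ν i * (Real.log (∑ k, (U i k * a k) ^ 2) / 2 + mlog) := by
    rw [Finset.sum_mul, Finset.mul_sum, Finset.sum_mul, ← Finset.sum_add_distrib]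
    refine Finset.sum_le_sum fun i _ => ?_
    have h6 : Real.log b ≤ Real.log (∑ k, (U i k * a k) ^ 2) := Real.log_le_log hb (hσ i)
    nlinarith [mul_le_mul_of_nonneg_left h6 (hν i)]
  linarith

theorem unitB (hT : S_TILTB) (hLAW : S_LAW) (hLOG : S_LOG) (hI : S_INTB) (hM : S_MOM)
    (hK : S_K) (hUNI : S_UNIB) : ∃ C : ℝ, 0 < C ∧ ∀ (r q d : ℕ) (U : Fin d → Fin (r + q) → ℝ) (c : ℝ),
      0 < c → c ≤ 1 → (∀ i, ∑ k, U i k ^ 2 = 1) → (∀ i, c ≤ ∑ k : Fin r, U i (Fin.castAdd q k) ^ 2) →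
      ∀ (ν : Fin d → ℝ) (τ : ℝ), (∀ i, 0 ≤ ν i) → (∀ i, ν i ≤ τ) → 0 < τ → 1 ≤ r → C * τ * r ≤ c ^ 2 * ∑ i, ν i →
      ∏ i, ∫ w : Fin (r + q) → ℝ, |∑ k, U i k * w k| ^ (2 * ν i) ∂(gr (r + q)) ≤
        ∫ w : Fin (r + q) → ℝ, ∏ i, |∑ k, U i k * w k| ^ (2 * ν i) ∂(gr (r + q)) := by
  obtain ⟨A, hA, hA'⟩ := hK
  obtain ⟨C, hC, h⟩ := hUNI A hA
  refine ⟨C, hC, fun r q d U c hc hc1 hU hUc ν τ hν hντ hτ hr hs => ?_⟩
  obtain ⟨a, ha, h1⟩ := h c τ r (∑ i, ν i) hc hc1 hτ hr hs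
  refine (upper hLAW hM U hU ν hν hτ hντ (hA' τ hτ)).trans ?_
  set aa : Fin (r + q) → ℝ := Fin.addCases (fun _ => a) (fun _ => 1) with haa
  have hl : ∀ k : Fin r, aa (Fin.castAdd q k) = a := fun k => by rw [haa]; exact Fin.addCases_left k
  have hr' : ∀ k : Fin q, aa (Fin.natAdd r k) = 1 := fun k => by rw [haa]; exact Fin.addCases_right k
  have hge : ∀ k, 1 ≤ aa k := by
    intro k
    refine Fin.addCases (fun j => ?_) (fun j => ?_) k
    · rw [hl]; exact ha.le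
    · rw [hr']
  have hb : 0 < 1 + c * (a ^ 2 - 1) := by
    have : 0 ≤ c * (a ^ 2 - 1) := mul_nonneg hc.le (by nlinarith)
    linarith
  have h2 := lowerB hT hLAW hLOG hI U ν hν aa hge hb (fun i => by
    have e1 := hU i
    rw [Fin.sum_univ_add] at e1
    rw [Fin.sum_univ_add]
    have e2 : ∑ k : Fin r, (U i (Fin.castAdd q k) * aa (Fin.castAdd q k)) ^ 2 =
        a ^ 2 * ∑ k : Fin r, U i (Fin.castAdd q k) ^ 2 := by
      rw [Finset.mul_sum]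
      exact Finset.sum_congr rfl fun k _ => by rw [hl]; ring
    have e3 : ∑ k : Fin q, (U i (Fin.natAdd r k) * aa (Fin.natAdd r k)) ^ 2 =
        ∑ k : Fin q, U i (Fin.natAdd r k) ^ 2 := Finset.sum_congr rfl fun k _ => by rw [hr', mul_one]
    rw [e2, e3]
    have h3 := hUc i
    have h4 : 0 ≤ a ^ 2 - 1 := by nlinarith
    nlinarith [mul_le_mul_of_nonneg_right h3 h4])
  refine le_trans (Real.exp_le_exp.2 ?_) h2
  have e4 : ∑ k, Real.log (aa k) = r * Real.log a := by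
    rw [Fin.sum_univ_add]
    simp only [hl, hr']
    simp
  have e5 : ∑ k, (aa k ^ 2 - 1) / 2 = (a ^ 2 - 1) / 2 * r := by
    rw [Fin.sum_univ_add]
    simp only [hl, hr']
    simp
    ring
  rw [e4, e5]
  have e6 : (∑ i, ν i) * (2 * ∫ x, Real.log |x| ∂(gaussianReal 0 1) + Real.log (1 + A * τ)) =
      2 * (∑ i, ν i) * mlog + (∑ i, ν i) * Real.log (1 + A * τ) := by
    unfold mlog
    ring
  rw [e6]
  linarith

theorem scaleB {r q : ℕ} (hr : 1 ≤ r) (u : Fin (r + q) → ℝ) {c : ℝ} (hc1 : c ≤ 1)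
    (hu : c * ∑ k, u k ^ 2 ≤ ∑ k : Fin r, u (Fin.castAdd q k) ^ 2) :
    ∃ (b : ℝ) (v : Fin (r + q) → ℝ), 0 ≤ b ∧ ∑ k, v k ^ 2 = 1 ∧ (∀ k, u k = b * v k) ∧
      c ≤ ∑ k : Fin r, v (Fin.castAdd q k) ^ 2 := by
  rcases eq_or_ne (∑ k, u k ^ 2) 0 with h | h
  · refine ⟨0, Pi.single (Fin.castAdd q ⟨0, hr⟩) 1, le_rfl, ?_, fun k => ?_, ?_⟩
    · rw [Finset.sum_eq_single (Fin.castAdd q ⟨0, hr⟩ : Fin (r + q))]
      · simp
      · intro b _ hb
        rw [Pi.single_eq_of_ne hb]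
        norm_num
      · intro hh
        exact absurd (Finset.mem_univ _) hh
    · rw [zero_mul]
      have := (Finset.sum_eq_zero_iff_of_nonneg fun k _ => sq_nonneg (u k)).1 h k (Finset.mem_univ _)
      exact pow_eq_zero_iff (two_ne_zero) |>.1 this
    · refine hc1.trans ?_
      have h1 : ((Pi.single (Fin.castAdd q ⟨0, hr⟩) 1 : Fin (r + q) → ℝ) (Fin.castAdd q ⟨0, hr⟩)) ^ 2 ≤
          ∑ k : Fin r, ((Pi.single (Fin.castAdd q ⟨0, hr⟩) 1 : Fin (r + q) → ℝ) (Fin.castAdd q k)) ^ 2 :=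
        Finset.single_le_sum (f := fun k : Fin r =>
          ((Pi.single (Fin.castAdd q ⟨0, hr⟩) 1 : Fin (r + q) → ℝ) (Fin.castAdd q k)) ^ 2)
          (fun k _ => sq_nonneg _) (Finset.mem_univ (⟨0, hr⟩ : Fin r))
      rw [Pi.single_eq_same, one_pow] at h1
      exact h1
  · have h0 : 0 < ∑ k, u k ^ 2 := lt_of_le_of_ne (Finset.sum_nonneg fun k _ => sq_nonneg _) (Ne.symm h)
    have hs : 0 < Real.sqrt (∑ k, u k ^ 2) := Real.sqrt_pos.2 h0
    refine ⟨Real.sqrt (∑ k, u k ^ 2), fun k => u k / Real.sqrt (∑ k, u k ^ 2), hs.le, (norm_row u h0).1,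
      fun k => ?_, ?_⟩
    · rw [mul_div_cancel₀ _ hs.ne']
    · simp only [div_pow]
      rw [← Finset.sum_div, Real.sq_sqrt h0.le, le_div_iff₀ h0]
      exact hu

theorem allB (hT : S_TILTB) (hLAW : S_LAW) (hLOG : S_LOG) (hI : S_INTB) (hM : S_MOM)
    (hK : S_K) (hUNI : S_UNIB) : ∃ C : ℝ, 0 < C ∧ ∀ (r q d : ℕ) (U : Fin d → Fin (r + q) → ℝ) (c : ℝ),
      0 < c → c ≤ 1 → (∀ i, c * ∑ k, U i k ^ 2 ≤ ∑ k : Fin r, U i (Fin.castAdd q k) ^ 2) →
      ∀ (ν : Fin d → ℝ) (τ : ℝ), (∀ i, 0 ≤ ν i) → (∀ i, ν i ≤ τ) → 0 < τ → 1 ≤ r → C * τ * r ≤ c ^ 2 * ∑ i, ν i →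
      ∏ i, ∫ w : Fin (r + q) → ℝ, |∑ k, U i k * w k| ^ (2 * ν i) ∂(gr (r + q)) ≤
        ∫ w : Fin (r + q) → ℝ, ∏ i, |∑ k, U i k * w k| ^ (2 * ν i) ∂(gr (r + q)) := by
  obtain ⟨C, hC, h⟩ := unitB hT hLAW hLOG hI hM hK hUNI
  refine ⟨C, hC, fun r q d U c hc hc1 hUc ν τ hν hντ hτ hr hs => ?_⟩
  choose b V hb hV hUV hVc using fun i => scaleB hr (U i) hc1 (hUc i)
  have h1 : ∀ (i : Fin d) (w : Fin (r + q) → ℝ), |∑ k, U i k * w k| ^ (2 * ν i) =
      b i ^ (2 * ν i) * |∑ k, V i k * w k| ^ (2 * ν i) := by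
    intro i w
    have e : ∑ k, U i k * w k = b i * ∑ k, V i k * w k := by
      rw [Finset.mul_sum]
      exact Finset.sum_congr rfl fun k _ => by rw [hUV i k]; ring
    rw [e, abs_mul, abs_of_nonneg (hb i), Real.mul_rpow (hb i) (abs_nonneg _)]
  have h2 := h r q d V c hc hc1 hV hVc ν τ hν hντ hτ hr hs
  have h3 : ∏ i, ∫ w : Fin (r + q) → ℝ, |∑ k, U i k * w k| ^ (2 * ν i) ∂(gr (r + q)) =
      (∏ i, b i ^ (2 * ν i)) * ∏ i, ∫ w : Fin (r + q) → ℝ, |∑ k, V i k * w k| ^ (2 * ν i) ∂(gr (r + q)) := by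
    rw [← Finset.prod_mul_distrib]
    refine Finset.prod_congr rfl fun i _ => ?_
    rw [← integral_const_mul]
    exact integral_congr_ae (Filter.Eventually.of_forall fun w => h1 i w)
  have h4 : ∫ w : Fin (r + q) → ℝ, ∏ i, |∑ k, U i k * w k| ^ (2 * ν i) ∂(gr (r + q)) =
      (∏ i, b i ^ (2 * ν i)) * ∫ w : Fin (r + q) → ℝ, ∏ i, |∑ k, V i k * w k| ^ (2 * ν i) ∂(gr (r + q)) := by
    rw [← integral_const_mul]
    refine integral_congr_ae (Filter.Eventually.of_forall fun w => ?_)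
    show ∏ i, |∑ k, U i k * w k| ^ (2 * ν i) =
      (∏ i, b i ^ (2 * ν i)) * ∏ i, |∑ k, V i k * w k| ^ (2 * ν i)
    rw [← Finset.prod_mul_distrib]
    exact Finset.prod_congr rfl fun i _ => h1 i w
  rw [h3, h4]
  exact mul_le_mul_of_nonneg_left h2 (Finset.prod_nonneg fun i _ => Real.rpow_nonneg (hb i) _)

theorem finalB (hREP : S_REPB) (hT : S_TILTB) (hLAW : S_LAW) (hLOG : S_LOG) (hI : S_INTB) (hM : S_MOM)
    (hK : S_K) (hUNI : S_UNIB) : ∃ C : ℝ, 0 < C ∧ ∀ (d : ℕ) (μ : Measure (Fin d → ℝ)), IsGaussian μ →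
      ∫ x, x ∂μ = 0 → ∀ (S' : Matrix (Fin d) (Fin d) ℝ) (c : ℝ), 0 < c → c ≤ 1 → S'.PosSemidef →
        ((Matrix.of fun i j : Fin d => ∫ x, x i * x j ∂μ) - S').PosSemidef →
        (∀ i, c * ∫ x, x i * x i ∂μ ≤ S' i i) → ∀ (ν : Fin d → ℝ) (τ : ℝ), (∀ i, 0 ≤ ν i) → (∀ i, ν i ≤ τ) →
          C * τ * S'.rank ≤ c ^ 2 * ∑ i, ν i →
            ∏ i, ∫ x, |x i| ^ (2 * ν i) ∂μ ≤ ∫ x, ∏ i, |x i| ^ (2 * ν i) ∂μ := by
  obtain ⟨C, hC, h⟩ := allB hT hLAW hLOG hI hM hK hUNI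
  refine ⟨C, hC, fun d μ hμ hμ0 S' c hc hc1 hS' hS'' hS3 ν τ hν hντ hs => ?_⟩
  have hprob : IsProbabilityMeasure μ := inferInstance
  rcases le_or_gt τ 0 with hτ | hτ
  · have hν0 : ∀ i, ν i = 0 := fun i => le_antisymm ((hντ i).trans hτ) (hν i)
    simp [hν0]
  obtain ⟨q, U, hU, hU1, hU2⟩ := hREP d μ hμ hμ0 S' hS' hS''
  have key : ∀ (r : ℕ) (U : Matrix (Fin d) (Fin (r + q)) ℝ), μ = (gr (r + q)).map (fun w => U.mulVec w) →
      (∀ i, c * ∑ k, U i k ^ 2 ≤ ∑ k : Fin r, U i (Fin.castAdd q k) ^ 2) →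
      C * τ * r ≤ c ^ 2 * ∑ i, ν i → ∏ i, ∫ x, |x i| ^ (2 * ν i) ∂μ ≤ ∫ x, ∏ i, |x i| ^ (2 * ν i) ∂μ := by
    intro r U hU hUc hs
    have hmU : Measurable fun w : Fin (r + q) → ℝ => U.mulVec w := measurable_pi_lambda _ fun i => meas_dot (U i)
    have e1 : ∀ f : (Fin d → ℝ) → ℝ, Measurable f → ∫ x, f x ∂μ = ∫ w, f (U.mulVec w) ∂(gr (r + q)) := by
      intro f hf
      rw [hU, integral_map hmU.aemeasurable hf.aestronglyMeasurable]
    have hmi : ∀ i : Fin d, Measurable fun x : Fin d → ℝ => |x i| ^ (2 * ν i) := fun i =>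
      ((measurable_pi_apply i).norm).pow_const _
    have e2 : ∫ x, ∏ i, |x i| ^ (2 * ν i) ∂μ = ∫ w, ∏ i, |∑ k, U i k * w k| ^ (2 * ν i) ∂(gr (r + q)) :=
      e1 _ (Finset.measurable_prod _ fun i _ => hmi i)
    have e3 : ∏ i, ∫ x, |x i| ^ (2 * ν i) ∂μ = ∏ i, ∫ w, |∑ k, U i k * w k| ^ (2 * ν i) ∂(gr (r + q)) :=
      Finset.prod_congr rfl fun i _ => e1 _ (hmi i)
    rw [e2, e3]
    rcases Nat.eq_zero_or_pos r with hr | hr
    · subst hr
      have hz : ∀ i k, U i k = 0 := by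
        intro i k
        have h1 := hUc i
        rw [Fin.sum_univ_zero] at h1
        have h2 : 0 ≤ ∑ k, U i k ^ 2 := Finset.sum_nonneg fun k _ => sq_nonneg _
        have h3 : ∑ k, U i k ^ 2 = 0 := by
          rcases h2.eq_or_lt with h4 | h4
          · exact h4.symm
          · exact absurd h1 (not_le.2 (mul_pos hc h4))
        have h4 := (Finset.sum_eq_zero_iff_of_nonneg fun k _ => sq_nonneg (U i k)).1 h3 k (Finset.mem_univ _)
        exact pow_eq_zero_iff (two_ne_zero) |>.1 h4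
      simp only [hz, zero_mul, Finset.sum_const_zero]
      simp
    · exact h r q d U c hc hc1 hUc ν τ hν hντ hτ hr hs
  refine key _ U hU (fun i => ?_) hs
  rw [← hU1 i, ← hU2 i]
  exact hS3 i

end Pool.Agent.P8H64.GP
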