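import Pool.Agent.P8H64.GP.Stm

/-!
# One more (optional) package: representation of a centred Gaussian law
-/

set_option autoImplicit false

namespace Pool.Agent.P8H64.GP

open MeasureTheory ProbabilityTheory

/-- REP (100 lines, optional). A centred Gaussian law on `ℝ ^ d` with covariance matrix `S` of rank `r` is the law of
`U W`, `W` standard in `ℝ ^ r`: write `S = U Uᵀ` with `U` of size `d × r` (spectral theorem, `S` positive semidefinite,
keep the eigenvectors with nonzero eigenvalues; `Matrix.IsHermitian.rank_eq_card_non_zero_eigs`), and compare the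
characteristic functions (`Measure.ext_of_charFun`, or `IsGaussian.charFunDual_eq` and `Measure.ext_of_charFunDual`). -/
def S_REP : Prop := ∀ (d : ℕ) (μ : Measure (Fin d → ℝ)), IsGaussian μ → ∫ x, x ∂μ = 0 →
  ∃ U : Matrix (Fin d) (Fin (Matrix.of fun i j : Fin d => ∫ x, x i * x j ∂μ).rank) ℝ,
    μ = (gr (Matrix.of fun i j : Fin d => ∫ x, x i * x j ∂μ).rank).map (fun w => U.mulVec w)

end Pool.Agent.P8H64.GP
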