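import Mathlib

/-!
# Gaussian product inequality for covariance matrices of low rank (MP_130bb2_pr): statements of the packages
-/

set_option autoImplicit false

namespace Pool.Agent.P8H64.GP

open MeasureTheory ProbabilityTheory

/-- the standard Gaussian law on `ℝ ^ r` -/
noncomputable abbrev gr (r : ℕ) : Measure (Fin r → ℝ) := Measure.pi (fun _ => gaussianReal 0 1)

/-- TILT (80 lines). Change of variables `w = a v`. Proof: both sides are `(∫⁻ ofReal ..).toReal`
(`integral_eq_lintegral_of_nonneg_ae`), so it is enough to prove the identity for `∫⁻` and measurable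
`F : (Fin r → ℝ) → ℝ≥0∞`; that is by induction on `r` (`measurePreserving_piFinSuccAbove`/`lintegral_prod`) from the case
of the line, or from `Measure.pi` of densities (`lintegral` of a product), or: the measures
`gr r` and `map (a • ·) ((gr r).withDensity (a ^ r * exp ..))` agree on boxes (`Measure.pi_eq`,
`lintegral_fintype_prod_eq_prod`). The case of the line: `gaussianReal_of_var_ne_zero`, `gaussianPDFReal`, and the
substitution `x ↦ a x` in the Lebesgue measure (`Measure.integral_comp_mul_left` or `lintegral_comp_mul_left` ..). -/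
def S_TILT : Prop := ∀ (r : ℕ) (F : (Fin r → ℝ) → ℝ), Measurable F → (∀ v, 0 ≤ F v) → ∀ a : ℝ, 0 < a →
  ∫ w, F w ∂(gr r) =
    a ^ r * ∫ v, F (fun k => a * v k) * Real.exp (-((a ^ 2 - 1) / 2) * ∑ k, v k ^ 2) ∂(gr r)

/-- LAW (40 lines). The law of `⟨u, W⟩` for a unit vector `u` (characteristic functions, or
`IsGaussian.map_eq_gaussianReal`, or sums of independent Gaussians by induction). -/
def S_LAW : Prop := ∀ (r : ℕ) (u : Fin r → ℝ), ∑ k, u k ^ 2 = 1 →
  (gr r).map (fun v => ∑ k, u k * v k) = gaussianReal 0 1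

/-- LOG (50 lines). `|log |x|| ≤ |x| + |x| ^ (-1/2) * 2`, the density is at most `1`, and `|x| ^ (-1/2)` is integrable on
`[-1, 1]`. -/
def S_LOG : Prop := Integrable (fun x : ℝ => Real.log |x|) (gaussianReal 0 1)

/-- MOM (40 lines). All absolute moments are finite, and Lyapunov's inequality (Jensen for the power `ν / τ ≤ 1`, or
`eLpNorm_le_eLpNorm_of_exponent_le`). -/
def S_MOM : Prop := ∀ ν τ : ℝ, 0 ≤ ν → ν ≤ τ → 0 < τ →
  Integrable (fun x : ℝ => |x| ^ (2 * ν)) (gaussianReal 0 1) ∧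
  ∫ x, |x| ^ (2 * ν) ∂(gaussianReal 0 1) ≤ (∫ x, |x| ^ (2 * τ) ∂(gaussianReal 0 1)) ^ (ν / τ)

/-- BDD (70 lines). The function is bounded and measurable: `|⟨u_i, v⟩| ≤ |v|` by Cauchy and Schwarz, so with
`t = |v|² ` and `s = ∑ ν_i` it is at most `t ^ s * exp (-c t) ≤ exp (s * log (s / c) - s)` for `s > 0` (from
`log y ≤ y - 1` with `y = c t / s`), and at most `1` for `s = 0`. -/
def S_BDD : Prop := ∀ (r d : ℕ) (U : Fin d → Fin r → ℝ), (∀ i, ∑ k, U i k ^ 2 = 1) →
  ∀ ν : Fin d → ℝ, (∀ i, 0 ≤ ν i) → ∀ c : ℝ, 0 < c →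
  Integrable (fun v : Fin r → ℝ => (∏ i, |∑ k, U i k * v k| ^ (2 * ν i)) * Real.exp (-c * ∑ k, v k ^ 2)) (gr r)

/-- SQ (30 lines). `variance_id_gaussianReal`, `memLp_id_gaussianReal`, `integral_comp_eval` (or
`MeasurePreserving` of the evaluations). -/
def S_SQ : Prop := ∀ r : ℕ, Integrable (fun v : Fin r → ℝ => ∑ k, v k ^ 2) (gr r) ∧
  ∫ v : Fin r → ℝ, ∑ k, v k ^ 2 ∂(gr r) = r

/-- FIN (40 lines; numbers). -/
def S_FIN : Prop := ∀ m K : ℝ, ∃ C : ℝ, 0 < C ∧ ∀ (r : ℕ) (s : ℝ), 1 ≤ r → C * r ≤ s →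
  ∃ a : ℝ, 1 < a ∧ s * K ≤ r * Real.log a + 2 * s * Real.log a + 2 * s * m - (a ^ 2 - 1) / 2 * r

end Pool.Agent.P8H64.GP
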